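import Pool.Agent.Q14.EdgeSq

/-!
# Local v-numbers of powers of edge ideals can drop by an arbitrary amount

`edgeIdeal K G` (from `Pool.Agent.Q14.EdgeV`) is the ideal of `K[x_v : v a vertex]` generated by
the products `x_a x_b`, `ab` an edge of the graph `G`.
-/

set_option autoImplicit false

namespace Pool.Agent.Results.MP_a79530_al.LocalDrop

open MvPolynomial Q14.Mono Q14.EdgeV

attribute [local instance] MvPolynomial.gradedAlgebra

/-- `d` is the local v-number of `J` at `p`: the least degree of a homogeneous `f` with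
`(J : f) = p`. -/
def IsLocalVNumber {K : Type*} [Field K] {n : ℕ} (J p : Ideal (MvPolynomial (Fin n) K)) (d : ℕ) :
    Prop :=
  IsLeast {d | ∃ f : MvPolynomial (Fin n) K, f.IsHomogeneous d ∧ Submodule.colon J {f} = p} d

/-- `p` is an associated prime of `S/J`. -/
def IsAss {K : Type*} [Field K] {n : ℕ} (J p : Ideal (MvPolynomial (Fin n) K)) : Prop :=
  p ∈ associatedPrimes (MvPolynomial (Fin n) K) (MvPolynomial (Fin n) K ⧸ J)

/-! ### The graph -/

/-- Vertices: a triangle `t_0, t_1, t_2`, a five-cycle `c_0, …, c_4` and `m` pairs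
`e_j = (j, false)`, `a_j = (j, true)`. -/
abbrev V (m : ℕ) : Type := (Fin 3 ⊕ Fin 5) ⊕ (Fin m × Bool)

/-- The edges between the triangle and the five-cycle. -/
def tc (i : Fin 3) (j : Fin 5) : Prop :=
  (i, j) ∈ [((0 : Fin 3), (1 : Fin 5)), (0, 4), (1, 2), (1, 0), (2, 3)]

instance (i : Fin 3) (j : Fin 5) : Decidable (tc i j) := by unfold tc; infer_instance

/-- Adjacency: the triangle, the five-cycle, the edges `tc`, and the edges `e_j c_0`, `e_j a_j`. -/
def adj {m : ℕ} : V m → V m → Prop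
  | Sum.inl (Sum.inl i), Sum.inl (Sum.inl j) => i ≠ j
  | Sum.inl (Sum.inl i), Sum.inl (Sum.inr j) => tc i j
  | Sum.inl (Sum.inr j), Sum.inl (Sum.inl i) => tc i j
  | Sum.inl (Sum.inr i), Sum.inl (Sum.inr j) => j = i + 1 ∨ i = j + 1
  | Sum.inl (Sum.inl _), Sum.inr _ => False
  | Sum.inr _, Sum.inl (Sum.inl _) => False
  | Sum.inl (Sum.inr i), Sum.inr (_, b) => i = 0 ∧ b = false
  | Sum.inr (_, b), Sum.inl (Sum.inr i) => i = 0 ∧ b = false
  | Sum.inr (s, b), Sum.inr (t, c) => s = t ∧ b ≠ c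

/-- The graph. -/
def gr (m : ℕ) : SimpleGraph (V m) where
  Adj := adj
  symm := ⟨by
    rintro ((i | i) | ⟨s, b⟩) ((j | j) | ⟨t, c⟩) h
    · exact Ne.symm h
    · exact h
    · exact h
    · exact h
    · exact Or.symm h
    · exact h
    · exact h
    · exact h
    · exact ⟨h.1.symm, h.2.symm⟩⟩
  loopless := ⟨by
    rintro ((i | i) | ⟨s, b⟩) h
    · exact h rfl
    · revert h
      show ¬ (i = i + 1 ∨ i = i + 1)
      revert i; decide
    · exact h.2 rfl⟩

lemma card_V (m : ℕ) : Fintype.card (V m) = 3 + 5 + m * 2 := by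
  simp [V]

section Proofs

variable {K : Type*} [Field K] {n m : ℕ} (e : V m ≃ Fin n)

/-- The graph on `Fin n`. -/
abbrev H : SimpleGraph (Fin n) := (gr m).comap e.symm

lemma H_adj (x y : V m) : (H e).Adj (e x) (e y) ↔ adj x y := by
  show (gr m).Adj (e.symm (e x)) (e.symm (e y)) ↔ _
  rw [e.symm_apply_apply, e.symm_apply_apply]
  exact Iff.rfl

/-- The vertex set whose variables generate the prime: all vertices except the `a_j`. -/
def CC : Set (Fin n) := {v | ∀ j, v ≠ e (Sum.inr (j, true))}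

/-- A weight for which all edges have weight at least two. -/
def wt (v : Fin n) : ℕ :=
  match e.symm v with
  | Sum.inl _ => 1
  | Sum.inr (_, false) => 2
  | Sum.inr (_, true) => 0

lemma wt_inl (x : Fin 3 ⊕ Fin 5) : wt e (e (Sum.inl x)) = 1 := by
  simp [wt]

lemma wt_a (j : Fin m) : wt e (e (Sum.inr (j, true))) = 0 := by
  simp [wt]

lemma wt_e (j : Fin m) : wt e (e (Sum.inr (j, false))) = 2 := by
  simp [wt]

lemma wt_edge (x y : Fin n) (h : (H e).Adj x y) : 2 ≤ wt e x + wt e y := by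
  obtain ⟨x, rfl⟩ := e.surjective x
  obtain ⟨y, rfl⟩ := e.surjective y
  rw [H_adj] at h
  rcases x with x | ⟨s, b⟩
  · rcases y with y | ⟨t, c⟩
    · rw [wt_inl, wt_inl]
    · rcases x with i | i
      · exact absurd h id
      · obtain ⟨-, rfl⟩ := h
        rw [wt_e]; omega
  · rcases y with y | ⟨t, c⟩
    · rcases y with i | i
      · exact absurd h id
      · obtain ⟨-, rfl⟩ := h
        rw [wt_e]; omega
    · obtain ⟨-, hbc⟩ := h
      cases b <;> cases c
      · exact absurd rfl hbc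
      · rw [wt_e]; omega
      · rw [wt_e (j := t)]; omega
      · exact absurd rfl hbc

/-- The computation of a colon ideal by a monomial of small weight. -/
lemma colon_eq (k : ℕ) (w : Fin n →₀ ℕ)
    (h1 : ∀ v ∈ CC e, X v * monomial w (1 : K) ∈ edgeIdeal K (H e) ^ k)
    (h2 : Finsupp.weight (wt e) w < k * 2) :
    Submodule.colon (edgeIdeal K (H e) ^ k) {(monomial w (1 : K))} = PV K (CC e) := by
  apply le_antisymm
  · intro f hf
    rw [mem_PV]
    intro u hu
    by_contra hcon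
    push Not at hcon
    rw [((isMon_edgeIdeal (H e)).pow k).mem_colon_monomial] at hf
    have h3 := pow_le_WtGE (edgeIdeal_le_WtGE (K := K) (wt e) 2 (wt_edge e)) k (hf u hu)
    rw [monomial_mem_WtGE, map_add] at h3
    have h4 : Finsupp.weight (wt e) u = 0 := by
      rw [Finsupp.weight_apply, Finsupp.sum]
      refine Finset.sum_eq_zero (fun v hv => ?_)
      by_cases hvC : v ∈ CC e
      · rw [hcon v hvC, zero_smul]
      · simp only [CC, Set.mem_ofPred_eq, not_forall, not_not] at hvC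
        obtain ⟨j, rfl⟩ := hvC
        rw [wt_a, smul_zero]
    omega
  · unfold PV
    rw [Ideal.span_le]
    rintro _ ⟨v, hv, rfl⟩
    show X v ∈ Submodule.colon (edgeIdeal K (H e) ^ k) {(monomial w (1 : K))}
    rw [Submodule.mem_colon_singleton, smul_eq_mul]
    exact h1 v hv

/-! ### The powers `I^k`, `k ≥ 3` -/

/-- The exponent of `c_0 c_1 c_2 c_3 c_4 (c_0 c_1)^(k-3)`. -/
noncomputable def wc (k : ℕ) : Fin n →₀ ℕ :=
  (∑ i : Fin 5, Finsupp.single (e (Sum.inl (Sum.inr i))) 1) +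
    (k - 3) • (Finsupp.single (e (Sum.inl (Sum.inr 0))) 1 +
      Finsupp.single (e (Sum.inl (Sum.inr 1))) 1)

lemma monomial_wc (k : ℕ) : (monomial (wc e k) (1 : K)) =
    (X (e (Sum.inl (Sum.inr 0))) * X (e (Sum.inl (Sum.inr 1))) * X (e (Sum.inl (Sum.inr 2))) *
      X (e (Sum.inl (Sum.inr 3))) * X (e (Sum.inl (Sum.inr 4)))) *
      (X (e (Sum.inl (Sum.inr 0))) * X (e (Sum.inl (Sum.inr 1)))) ^ (k - 3) := by
  unfold wc
  rw [Fin.sum_univ_five]
  simp only [X, monomial_mul, monomial_pow, one_pow, one_mul]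

lemma weight_wc (k : ℕ) (hk : 3 ≤ k) : Finsupp.weight (wt e) (wc e k) = 2 * k - 1 := by
  unfold wc
  simp only [map_add, map_sum, map_nsmul, Finsupp.weight_single, wt_inl]
  simp
  omega

lemma adj_cycle (x : V m) (hx : ∀ j, x ≠ Sum.inr (j, true)) :
    ∃ i : Fin 5, adj x (Sum.inl (Sum.inr i)) := by
  rcases x with (i | i) | ⟨s, b⟩
  · have : ∀ i : Fin 3, ∃ j : Fin 5, tc i j := by decide
    exact this i
  · exact ⟨i + 1, Or.inl rfl⟩
  · cases b
    · exact ⟨0, rfl, rfl⟩
    · exact absurd rfl (hx s)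

lemma mem_cube (v : Fin n) (hv : v ∈ CC e) :
    (X v * (X (e (Sum.inl (Sum.inr 0))) * X (e (Sum.inl (Sum.inr 1))) *
      X (e (Sum.inl (Sum.inr 2))) * X (e (Sum.inl (Sum.inr 3))) * X (e (Sum.inl (Sum.inr 4)))) :
      MvPolynomial (Fin n) K) ∈ edgeIdeal K (H e) ^ 3 := by
  obtain ⟨x, rfl⟩ := e.surjective v
  obtain ⟨i, hi⟩ := adj_cycle x (fun j hj => hv j (by rw [hj]))
  have hvi : (H e).Adj (e x) (e (Sum.inl (Sum.inr i))) := (H_adj e _ _).mpr hi
  have hcc : ∀ i j : Fin 5, (j = i + 1) →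
      (X (e (Sum.inl (Sum.inr i))) * X (e (Sum.inl (Sum.inr j))) : MvPolynomial (Fin n) K) ∈
        edgeIdeal K (H e) := by
    intro i j hij
    exact edge_mem ((H_adj e _ _).mpr (Or.inl hij))
  have h3 : ∀ p q r : MvPolynomial (Fin n) K, p ∈ edgeIdeal K (H e) → q ∈ edgeIdeal K (H e) →
      r ∈ edgeIdeal K (H e) → p * q * r ∈ edgeIdeal K (H e) ^ 3 := by
    intro p q r hp hq hr
    rw [pow_succ, pow_two]
    exact Ideal.mul_mem_mul (Ideal.mul_mem_mul hp hq) hr
  have hE := edge_mem (K := K) hvi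
  fin_cases i
  · have := h3 _ _ _ hE (hcc 1 2 (by decide)) (hcc 3 4 (by decide))
    convert! this using 1
    simp only [Fin.zero_eta]
    ring
  · have := h3 _ _ _ hE (hcc 2 3 (by decide)) (hcc 4 0 (by decide))
    convert! this using 1
    simp only [Fin.mk_one]
    ring
  · have := h3 _ _ _ hE (hcc 3 4 (by decide)) (hcc 0 1 (by decide))
    convert! this using 1
    simp only [Fin.reduceFinMk]
    ring
  · have := h3 _ _ _ hE (hcc 4 0 (by decide)) (hcc 1 2 (by decide))
    convert! this using 1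
    simp only [Fin.reduceFinMk]
    ring
  · have := h3 _ _ _ hE (hcc 0 1 (by decide)) (hcc 2 3 (by decide))
    convert! this using 1
    simp only [Fin.reduceFinMk]
    ring

lemma colon_wc (k : ℕ) (hk : 3 ≤ k) :
    Submodule.colon (edgeIdeal K (H e) ^ k) {(monomial (wc e k) (1 : K))} = PV K (CC e) := by
  apply colon_eq
  · intro v hv
    rw [monomial_wc, ← mul_assoc]
    obtain ⟨l, rfl⟩ := exists_add_of_le hk
    rw [Nat.add_sub_cancel_left, pow_add]
    refine Ideal.mul_mem_mul (mem_cube e v hv) (Ideal.pow_mem_pow ?_ _)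
    exact edge_mem ((H_adj e _ _).mpr (Or.inl rfl))
  · rw [weight_wc e k hk]; omega

/-! ### The square -/

/-- The exponent of `t_0 t_1 t_2 a_1 ⋯ a_m`. -/
noncomputable def w2 : Fin n →₀ ℕ :=
  (∑ i : Fin 3, Finsupp.single (e (Sum.inl (Sum.inl i))) 1) +
    ∑ j : Fin m, Finsupp.single (e (Sum.inr (j, true))) 1

lemma monomial_w2 : (monomial (w2 e) (1 : K)) =
    (X (e (Sum.inl (Sum.inl 0))) * X (e (Sum.inl (Sum.inl 1))) * X (e (Sum.inl (Sum.inl 2)))) *
      ∏ j : Fin m, X (e (Sum.inr (j, true))) := by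
  unfold w2
  rw [Fin.sum_univ_three]
  have h : (∏ j : Fin m, X (e (Sum.inr (j, true))) : MvPolynomial (Fin n) K)
      = monomial (∑ j : Fin m, Finsupp.single (e (Sum.inr (j, true))) 1) 1 := by
    rw [monomial_sum_one]
    rfl
  rw [h]
  simp only [X, monomial_mul, one_mul]

lemma mem_sq_t (v : Fin n) (i : Fin 3) (h : (H e).Adj v (e (Sum.inl (Sum.inl i)))) :
    (X v * (X (e (Sum.inl (Sum.inl 0))) * X (e (Sum.inl (Sum.inl 1))) *
      X (e (Sum.inl (Sum.inl 2)))) : MvPolynomial (Fin n) K) ∈ edgeIdeal K (H e) ^ 2 := by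
  have htt : ∀ i j : Fin 3, i ≠ j →
      (X (e (Sum.inl (Sum.inl i))) * X (e (Sum.inl (Sum.inl j))) : MvPolynomial (Fin n) K) ∈
        edgeIdeal K (H e) := by
    intro i j hij
    exact edge_mem ((H_adj e _ _).mpr hij)
  have h2 : ∀ p q : MvPolynomial (Fin n) K, p ∈ edgeIdeal K (H e) → q ∈ edgeIdeal K (H e) →
      p * q ∈ edgeIdeal K (H e) ^ 2 := by
    intro p q hp hq
    rw [pow_two]
    exact Ideal.mul_mem_mul hp hq
  have hE := edge_mem (K := K) h
  fin_cases i
  · convert! h2 _ _ hE (htt 1 2 (by decide)) using 1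
    simp only [Fin.zero_eta]
    ring
  · convert! h2 _ _ hE (htt 0 2 (by decide)) using 1
    simp only [Fin.mk_one]
    ring
  · convert! h2 _ _ hE (htt 0 1 (by decide)) using 1
    simp only [Fin.reduceFinMk]
    ring

lemma colon_w2 :
    Submodule.colon (edgeIdeal K (H e) ^ 2) {(monomial (w2 e) (1 : K))} = PV K (CC e) := by
  apply colon_eq
  · intro v hv
    rw [monomial_w2]
    obtain ⟨x, rfl⟩ := e.surjective v
    rcases x with (i | i) | ⟨s, b⟩
    · have : ∀ i : Fin 3, ∃ j : Fin 3, i ≠ j := by decide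
      obtain ⟨j, hj⟩ := this i
      rw [← mul_assoc]
      exact Ideal.mul_mem_right _ _ (mem_sq_t e _ j ((H_adj e _ _).mpr hj))
    · have : ∀ i : Fin 5, ∃ j : Fin 3, tc j i := by decide
      obtain ⟨j, hj⟩ := this i
      rw [← mul_assoc]
      exact Ideal.mul_mem_right _ _ (mem_sq_t e _ j ((H_adj e _ _).mpr hj))
    · cases b
      · rw [← Finset.mul_prod_erase Finset.univ (fun j : Fin m =>
          (X (e (Sum.inr (j, true))) : MvPolynomial (Fin n) K)) (Finset.mem_univ s)]
        have h1 : (X (e (Sum.inr (s, false))) * X (e (Sum.inr (s, true))) :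
            MvPolynomial (Fin n) K) ∈ edgeIdeal K (H e) := by
          refine edge_mem ((H_adj e _ _).mpr ?_)
          exact ⟨rfl, by decide⟩
        have h2 : (X (e (Sum.inl (Sum.inl 0))) * X (e (Sum.inl (Sum.inl 1))) :
            MvPolynomial (Fin n) K) ∈ edgeIdeal K (H e) := by
          refine edge_mem ((H_adj e _ _).mpr ?_)
          show (0 : Fin 3) ≠ 1
          decide
        have h3 : (X (e (Sum.inr (s, false))) * ((X (e (Sum.inl (Sum.inl 0))) *
            X (e (Sum.inl (Sum.inl 1))) * X (e (Sum.inl (Sum.inl 2)))) *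
            (X (e (Sum.inr (s, true))) * ∏ j ∈ Finset.univ.erase s, X (e (Sum.inr (j, true))))) :
            MvPolynomial (Fin n) K)
          = ((X (e (Sum.inr (s, false))) * X (e (Sum.inr (s, true)))) *
            (X (e (Sum.inl (Sum.inl 0))) * X (e (Sum.inl (Sum.inl 1))))) *
            (X (e (Sum.inl (Sum.inl 2))) *
              ∏ j ∈ Finset.univ.erase s, X (e (Sum.inr (j, true)))) := by
          ring
        rw [h3, pow_two]
        exact Ideal.mul_mem_right _ _ (Ideal.mul_mem_mul h1 h2)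
      · exact absurd rfl (hv s)
  · unfold w2
    simp only [map_add, map_sum, Finsupp.weight_single, wt_inl, wt_a]
    simp

lemma le_degree {d : ℕ} {f : MvPolynomial (Fin n) K} (hf : f.IsHomogeneous d)
    (h : Submodule.colon (edgeIdeal K (H e) ^ 2) {f} = PV K (CC e)) : m ≤ d := by
  classical
  have hfI : f ∉ edgeIdeal K (H e) ^ 2 := by
    intro h1
    apply (PV_isPrime (K := K) (CC e)).ne_top
    rw [← h, Ideal.eq_top_iff_one, Submodule.mem_colon_singleton, one_smul]
    exact h1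
  rw [((isMon_edgeIdeal (H e)).pow 2).mem_iff] at hfI
  push Not at hfI
  obtain ⟨u, hu, huI⟩ := hfI
  rw [monomial_mem_sq] at huI
  have hC : ∀ v ∈ CC e, TwoEdges (H e) (Finsupp.single v 1 + u) := by
    intro v hv
    have h1 : X v ∈ Submodule.colon (edgeIdeal K (H e) ^ 2) {f} := by
      rw [h]; exact X_mem_PV.mpr hv
    rw [Submodule.mem_colon_singleton, smul_eq_mul] at h1
    rw [← monomial_mem_sq (K := K)]
    exact ((isMon_edgeIdeal (H e)).pow 2).of_X_mul_mem h1 hu
  have hc0 : e (Sum.inl (Sum.inr 0)) ∈ CC e := by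
    intro j hj
    have := e.injective hj
    simp at this
  have hadj : ∀ x y, (H e).Adj (e x) (e y) → adj x y := fun x y => (H_adj e x y).mp
  have htri : ∀ p r, (H e).Adj (e (Sum.inl (Sum.inr 0))) p →
      (H e).Adj (e (Sum.inl (Sum.inr 0))) r → ¬ (H e).Adj p r := by
    intro p r hp hr hpr
    obtain ⟨x, rfl⟩ := e.surjective p
    obtain ⟨y, rfl⟩ := e.surjective r
    have h1 := hadj _ _ hp
    have h2 := hadj _ _ hr
    have h3 := hadj _ _ hpr
    have ht : ∀ i j : Fin 3, tc i 0 → tc j 0 → i = j := by decide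
    have htc : ∀ (i : Fin 3) (j : Fin 5), tc i 0 → (j = 0 + 1 ∨ 0 = j + 1) → ¬ tc i j := by
      decide
    have hcc : ∀ i j : Fin 5, (i = 0 + 1 ∨ 0 = i + 1) → (j = 0 + 1 ∨ 0 = j + 1) →
        ¬ (j = i + 1 ∨ i = j + 1) := by decide
    have hc0 : ∀ i : Fin 5, (i = 0 + 1 ∨ 0 = i + 1) → i ≠ 0 := by decide
    rcases x with (i | i) | ⟨s, b⟩ <;> rcases y with (j | j) | ⟨t, c⟩
    · exact h3 (ht i j h1 h2)
    · exact htc i j h1 h2 h3
    · exact h3
    · exact htc j i h2 h1 h3
    · exact hcc i j h1 h2 h3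
    · exact hc0 i h1 h3.1
    · exact h3
    · exact hc0 j h2 h3.1
    · obtain ⟨-, hb⟩ := h1
      obtain ⟨-, hc⟩ := h2
      exact h3.2 (hb.trans hc.symm)
  have key : ∀ j : Fin m, 1 ≤ u (e (Sum.inr (j, true))) := by
    intro j
    have hj : e (Sum.inr (j, false)) ∈ CC e := by
      intro i hi
      have := e.injective hi
      simp at this
    obtain ⟨p, q, r, hp, hqr, hle⟩ := augment huI (hC _ hj)
    obtain ⟨x, rfl⟩ := e.surjective p
    have h1 := hadj _ _ hp
    rcases x with (i | i) | ⟨s, b⟩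
    · exact absurd h1 id
    · obtain ⟨rfl, -⟩ := h1
      exact (no_triangle huI htri (hC _ hc0) hqr hle).elim
    · obtain ⟨rfl, hb⟩ := h1
      have hb' : b = true := by
        cases b
        · exact absurd rfl hb
        · rfl
      subst hb'
      have h4 := hle (e (Sum.inr (j, true)))
      rw [Finsupp.add_apply, Finsupp.add_apply, Finsupp.single_eq_same] at h4
      omega
  have hdeg : ∑ i, u i = d := by
    have h1 : Finsupp.weight (1 : Fin n → ℕ) u = d := hf (mem_support_iff.mp hu)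
    rw [← h1, Finsupp.weight_apply, Finsupp.sum_fintype _ _ (by simp)]
    simp
  rw [← hdeg]
  calc m = ∑ j : Fin m, 1 := by simp
    _ ≤ ∑ j : Fin m, u (e (Sum.inr (j, true))) := Finset.sum_le_sum (fun j _ => key j)
    _ = ∑ i ∈ (Finset.univ : Finset (Fin m)).image (fun j => e (Sum.inr (j, true))), u i := by
        rw [Finset.sum_image]
        intro a _ b _ hab
        have := e.injective hab
        simpa using this
    _ ≤ ∑ i, u i := Finset.sum_le_sum_of_subset (Finset.subset_univ _)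

end Proofs

/-- **Local v-numbers of powers need not increase; they can drop by any amount.**
Let `K` be any field.
* For every `m` there are a graph `G` and a prime `p` associated to all powers `I^k`, `k ≥ 2`,
  of its edge ideal `I`, such that `v_p(I^2) ≥ m` and `v_p(I^3) ≤ 5`.
* In particular it is not true that `v_p(I^k) < v_p(I^(k+1))` for all homogeneous ideals `I`
  of polynomial rings, all `p` in `Ass^∞(I)` and all `k ≥ 1` with `p ∈ Ass(I^k) ∩ Ass(I^(k+1))`. -/
theorem result (K : Type*) [Field K] :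
    (∀ m : ℕ, ∃ (n : ℕ) (G : SimpleGraph (Fin n)) (p : Ideal (MvPolynomial (Fin n) K)) (v w : ℕ),
      (edgeIdeal K G).IsHomogeneous (homogeneousSubmodule (Fin n) K) ∧
      (∀ k : ℕ, 2 ≤ k → IsAss (edgeIdeal K G ^ k) p) ∧
      IsLocalVNumber (edgeIdeal K G ^ 2) p v ∧ IsLocalVNumber (edgeIdeal K G ^ 3) p w ∧
      m ≤ v ∧ w ≤ 5) ∧
    ¬ (∀ (n : ℕ) (I p : Ideal (MvPolynomial (Fin n) K)),
      I.IsHomogeneous (homogeneousSubmodule (Fin n) K) →
      (∀ N : ℕ, ∃ k : ℕ, N ≤ k ∧ IsAss (I ^ k) p) →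
      ∀ k : ℕ, 1 ≤ k → IsAss (I ^ k) p → IsAss (I ^ (k + 1)) p →
      ∀ v w : ℕ, IsLocalVNumber (I ^ k) p v → IsLocalVNumber (I ^ (k + 1)) p w → v < w) := by
  classical
  have main : ∀ m : ℕ, ∃ (n : ℕ) (G : SimpleGraph (Fin n)) (p : Ideal (MvPolynomial (Fin n) K))
      (v w : ℕ), (edgeIdeal K G).IsHomogeneous (homogeneousSubmodule (Fin n) K) ∧
      (∀ k : ℕ, 2 ≤ k → IsAss (edgeIdeal K G ^ k) p) ∧
      IsLocalVNumber (edgeIdeal K G ^ 2) p v ∧ IsLocalVNumber (edgeIdeal K G ^ 3) p w ∧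
      m ≤ v ∧ w ≤ 5 := by
    intro m
    let e : V m ≃ Fin (3 + 5 + m * 2) := Fintype.equivFinOfCardEq (card_V m)
    have hw2 : (monomial (w2 e) (1 : K)).IsHomogeneous (3 + m) := by
      rw [monomial_w2]
      have h1 : (∏ j : Fin m, X (e (Sum.inr (j, true))) :
          MvPolynomial (Fin (3 + 5 + m * 2)) K).IsHomogeneous (∑ _j : Fin m, 1) :=
        IsHomogeneous.prod _ _ _ (fun j _ => isHomogeneous_X K _)
      have h2 := (((isHomogeneous_X K (e (Sum.inl (Sum.inl 0)))).mul
        (isHomogeneous_X K (e (Sum.inl (Sum.inl 1))))).mul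
        (isHomogeneous_X K (e (Sum.inl (Sum.inl 2))))).mul h1
      simpa using h2
    have hw3 : (monomial (wc e 3) (1 : K)).IsHomogeneous 5 := by
      rw [monomial_wc]
      have h2 := ((((isHomogeneous_X K (e (Sum.inl (Sum.inr 0)))).mul
        (isHomogeneous_X K (e (Sum.inl (Sum.inr 1))))).mul
        (isHomogeneous_X K (e (Sum.inl (Sum.inr 2))))).mul
        (isHomogeneous_X K (e (Sum.inl (Sum.inr 3))))).mul
        (isHomogeneous_X K (e (Sum.inl (Sum.inr 4))))
      simpa using h2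
    have hex2 : ∃ d, ∃ f : MvPolynomial (Fin (3 + 5 + m * 2)) K, f.IsHomogeneous d ∧
        Submodule.colon (edgeIdeal K (H e) ^ 2) {f} = PV K (CC e) := ⟨_, _, hw2, colon_w2 e⟩
    have hex3 : ∃ d, ∃ f : MvPolynomial (Fin (3 + 5 + m * 2)) K, f.IsHomogeneous d ∧
        Submodule.colon (edgeIdeal K (H e) ^ 3) {f} = PV K (CC e) :=
      ⟨_, _, hw3, colon_wc e 3 le_rfl⟩
    refine ⟨3 + 5 + m * 2, H e, PV K (CC e), Nat.find hex2, Nat.find hex3, ?_, ?_, ?_, ?_, ?_, ?_⟩
    · apply Ideal.homogeneous_span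
      rintro _ ⟨a, b, -, rfl⟩
      exact ⟨2, (isHomogeneous_X K a).mul (isHomogeneous_X K b)⟩
    · intro k hk
      rcases Nat.lt_or_ge k 3 with hk3 | hk3
      · have : k = 2 := by omega
        subst this
        unfold IsAss
        rw [← colon_w2 e]
        exact colon_mem_associatedPrimes (by rw [colon_w2 e]; exact PV_isPrime _)
      · unfold IsAss
        rw [← colon_wc e k hk3]
        exact colon_mem_associatedPrimes (by rw [colon_wc e k hk3]; exact PV_isPrime _)
    · exact ⟨Nat.find_spec hex2, fun d hd => Nat.find_min' hex2 hd⟩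
    · exact ⟨Nat.find_spec hex3, fun d hd => Nat.find_min' hex3 hd⟩
    · obtain ⟨f, hf, hc⟩ := Nat.find_spec hex2
      exact le_degree e hf hc
    · exact Nat.find_min' hex3 ⟨_, hw3, colon_wc e 3 le_rfl⟩
  refine ⟨main, fun h => ?_⟩
  obtain ⟨n, G, p, v, w, h1, h2, h3, h4, h5, h6⟩ := main 5
  have := h n (edgeIdeal K G) p h1 (fun N => ⟨N + 2, by omega, h2 _ (by omega)⟩) 2 (by omega)
    (h2 2 le_rfl) (h2 3 (by omega)) v w h3 h4
  omega

end Pool.Agent.Results.MP_a79530_al.LocalDrop
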